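import Pool.Agent.H257R3.SI.Stubs

set_option autoImplicit false

namespace Pool.Agent.H207R3

open Pool.Agent.H257R3.SI

theorem a1 : St_A1 := by
  intro V _ _ ρ c
  unfold Ex wt
  rw [← Finset.sum_mul]
  have h := Finset.prod_univ_sum (fun _ : V => (Finset.univ : Finset Bool)) 
    (fun (_ : V) (b : Bool) => if b = true then ρ else 1 - ρ)
  rw [Fintype.piFinset_univ] at h
  rw [← h]
  simp

theorem a2_sum {V : Type} [Fintype V] [DecidableEq V] (v : V) (ψ : Bool → ℝ) (R : (V → Bool) → ℝ) 
    (hR : ∀ F b, R (Function.update F v b) = R F) : 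
    ∑ F : V → Bool, ψ (F v) * R F = (ψ true + ψ false) / 2 * ∑ F : V → Bool, R F := by
  have hinv : Function.Involutive (fun F : V → Bool => Function.update F v (!F v)) := by
    intro F
    simp only [Function.update_self, Function.update_idem, Bool.not_not, Function.update_eq_self]
  have h1 : ∑ F : V → Bool, ψ (F v) * R F = ∑ F : V → Bool, ψ (!F v) * R F := by
    refine Fintype.sum_equiv hinv.toPerm _ _ fun F => ?_
    simp only [Function.Involutive.coe_toPerm, Function.update_self, Bool.not_not, hR]
  have h2 : ∑ F : V → Bool, ψ (F v) * R F + ∑ F : V → Bool, ψ (F v) * R F = 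
      (ψ true + ψ false) * ∑ F : V → Bool, R F := by
    conv_lhs => arg 2; rw [h1]
    rw [← Finset.sum_add_distrib, Finset.mul_sum]
    refine Finset.sum_congr rfl fun F _ => ?_
    cases F v
    · simp only [Bool.not_false]; ring
    · simp only [Bool.not_true]; ring
  linarith

theorem a2 : St_A2 := by
  intro V _ _ ρ v φ g hg
  set R : (V → Bool) → ℝ := fun F => 
    (∏ w ∈ Finset.univ.erase v, if F w = true then ρ else 1 - ρ) * g F with hRd
  have hR : ∀ F b, R (Function.update F v b) = R F := by
    intro F b
    simp only [hRd, hg]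
    congr 1
    refine Finset.prod_congr rfl fun w hw => ?_
    rw [Function.update_of_ne (Finset.ne_of_mem_erase hw)]
  have hw : ∀ F : V → Bool, wt ρ F * g F = (if F v = true then ρ else 1 - ρ) * R F := by
    intro F
    simp only [hRd]
    unfold wt
    rw [← Finset.mul_prod_erase Finset.univ _ (Finset.mem_univ v)]
    ring
  have h1 : Ex ρ (fun F => φ (F v) * g F) = 
      ∑ F : V → Bool, (fun b : Bool => (if b = true then ρ else 1 - ρ) * φ b) (F v) * R F := by
    unfold Ex
    refine Finset.sum_congr rfl fun F _ => ?_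
    have := hw F
    calc wt ρ F * (φ (F v) * g F) = φ (F v) * (wt ρ F * g F) := by ring
      _ = _ := by rw [this]; ring
  have h2 : Ex ρ g = 
      ∑ F : V → Bool, (fun b : Bool => (if b = true then ρ else 1 - ρ)) (F v) * R F := by
    unfold Ex
    exact Finset.sum_congr rfl fun F _ => hw F
  rw [h1, h2, a2_sum v (fun b : Bool => (if b = true then ρ else 1 - ρ) * φ b) R hR, 
    a2_sum v (fun b : Bool => (if b = true then ρ else 1 - ρ)) R hR]
  simp only [if_true, Bool.false_eq_true, if_false]
  ring

end Pool.Agent.H207R3
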